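import Mathlib

set_option autoImplicit false
set_option maxHeartbeats 400000

open MvPolynomial

namespace Pool.Agent.Results.MP_d61c7e_al.Determining

def sS {R : Type*} [CommRing R] : List R → R
  | [] => 0
  | x :: l => (sS l * x) * (sS l * x) + (sS l + x)

def PP {R : Type*} [CommRing R] (s : R) : List R → R
  | [] => s * s
  | x :: l => (s ^ (4 ^ (l.length + 1)) + x) * (s ^ (4 ^ (l.length + 1)) + x) + PP s l

theorem map_sS {R F : Type*} [CommRing R] [FunLike F R R] [RingHomClass F R R] (f : F)
    (l : List R) : f (sS l) = sS (l.map f) := by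
  induction l with
  | nil => simp [sS]
  | cons x l ih => simp [sS, ih]

theorem map_PP {R F : Type*} [CommRing R] [FunLike F R R] [RingHomClass F R R] (f : F) (s : R)
    (l : List R) : f (PP s l) = PP (f s) (l.map f) := by
  induction l with
  | nil => simp [PP]
  | cons x l ih => simp [PP, ih]

variable {σ K : Type*} [Field K] [CharZero K]

omit [CharZero K] in
theorem deg_mul_self (a : MvPolynomial σ K) : (a * a).totalDegree = 2 * a.totalDegree := by
  by_cases h : a = 0
  · simp [h]
  · rw [totalDegree_mul_of_isDomain h h, two_mul]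

omit [CharZero K] in
theorem deg_pow (a : MvPolynomial σ K) (h : a ≠ 0) (n : ℕ) :
    (a ^ n).totalDegree = n * a.totalDegree := by
  induction n with
  | zero => simp
  | succ n ih => rw [pow_succ, totalDegree_mul_of_isDomain (pow_ne_zero _ h) h, ih]; ring

omit [CharZero K] in
theorem deg_s (u v : MvPolynomial σ K) : u.totalDegree ≤ (u * v * (u * v) + (u + v)).totalDegree ∧
    v.totalDegree ≤ (u * v * (u * v) + (u + v)).totalDegree := by
  by_cases hu : u = 0
  · simp [hu]
  by_cases hv : v = 0
  · simp [hv]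
  by_cases h0 : u.totalDegree + v.totalDegree = 0
  · omega
  have h1 := deg_mul_self (u * v)
  rw [totalDegree_mul_of_isDomain hu hv] at h1
  have h2 := totalDegree_add u v
  rw [totalDegree_add_eq_left_of_totalDegree_lt (by omega)]
  omega

omit [CharZero K] in
theorem deg_sS (l : List (MvPolynomial σ K)) : ∀ x ∈ l, x.totalDegree ≤ (sS l).totalDegree := by
  induction l with
  | nil => simp
  | cons y l ih =>
    intro x hx
    rcases List.mem_cons.1 hx with rfl | hx
    · exact (deg_s _ _).2
    · exact (ih x hx).trans (deg_s _ _).1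

theorem deg_two (a : MvPolynomial σ K) : (a + a).totalDegree = a.totalDegree := by
  by_cases h : a = 0
  · simp [h]
  have e : a + a = C 2 * a := by rw [map_ofNat, two_mul]
  rw [e, totalDegree_mul_of_isDomain (by simp) h, totalDegree_C, zero_add]

theorem sq_cancel (F G a b : MvPolynomial σ K) (ha : a.totalDegree < F.totalDegree)
    (hb : b.totalDegree < F.totalDegree) (h : F * F + a = G * G + b) :
    (F = G ∨ F = -G) ∧ a = b := by
  have h1 : F = G ∨ F = -G := by
    by_contra hc
    push Not at hc
    have e : (F - G) * (F + G) = b - a := by linear_combination h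
    have d1 := totalDegree_mul_of_isDomain (sub_ne_zero.2 hc.1)
      (show F + G ≠ 0 from fun e => hc.2 (eq_neg_of_add_eq_zero_left e))
    have d2 := totalDegree_sub b a
    have d3 := totalDegree_add (F - G) (F + G)
    rw [show F - G + (F + G) = F + F by ring, deg_two] at d3
    rw [e] at d1
    omega
  refine ⟨h1, ?_⟩
  rcases h1 with rfl | rfl
  · exact add_left_cancel h
  · linear_combination h

omit [CharZero K] in
theorem deg_H (s x : MvPolynomial σ K) (hs : 0 < s.totalDegree) (hx : x.totalDegree ≤ s.totalDegree)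
    (n : ℕ) : (s ^ (4 ^ (n + 1)) + x).totalDegree = 4 * (4 ^ n * s.totalDegree) := by
  have h0 : s ≠ 0 := by rintro rfl; simp at hs
  have h1 := deg_pow s h0 (4 ^ (n + 1))
  have h2 : 1 ≤ 4 ^ n := Nat.one_le_pow _ _ (by norm_num)
  rw [totalDegree_add_eq_left_of_totalDegree_lt, h1, pow_succ]
  · ring
  · rw [h1, pow_succ]; nlinarith

omit [CharZero K] in
theorem deg_PP (s : MvPolynomial σ K) (hs : 0 < s.totalDegree) (l : List (MvPolynomial σ K))
    (hl : ∀ x ∈ l, x.totalDegree ≤ s.totalDegree) :
    (PP s l).totalDegree = 2 * (4 ^ l.length * s.totalDegree) := by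
  induction l with
  | nil => simp [PP, deg_mul_self]
  | cons x l ih =>
    have h1 := ih fun y hy => hl y (by simp [hy])
    have h2 := deg_H s x hs (hl x (by simp)) l.length
    have h3 : 0 < 4 ^ l.length * s.totalDegree := by positivity
    rw [PP, totalDegree_add_eq_left_of_totalDegree_lt (by rw [deg_mul_self]; omega), deg_mul_self,
      h2, List.length_cons, pow_succ]
    ring

theorem PP_inj (s t : MvPolynomial σ K) (hs : 0 < s.totalDegree)
    (hst : t.totalDegree = s.totalDegree) (l : List (MvPolynomial σ K)) :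
    ∀ m : List (MvPolynomial σ K), l.length = m.length →
      (∀ x ∈ l, x.totalDegree ≤ s.totalDegree) → (∀ x ∈ m, x.totalDegree ≤ t.totalDegree) →
      PP s l = PP t m → s * s = t * t ∧ l = m := by
  induction l with
  | nil =>
    intro m hm _ _ h
    obtain rfl : m = [] := List.length_eq_zero_iff.1 hm.symm
    exact ⟨h, rfl⟩
  | cons x l ih =>
    intro m hm h1 h2 h
    obtain _ | ⟨y, m⟩ := m
    · simp at hm
    have hm' : l.length = m.length := by simpa using hm
    have h1' : ∀ z ∈ l, z.totalDegree ≤ s.totalDegree := fun z hz => h1 z (by simp [hz])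
    have h2' : ∀ z ∈ m, z.totalDegree ≤ t.totalDegree := fun z hz => h2 z (by simp [hz])
    have d1 := deg_PP s hs l h1'
    have d2 := deg_PP t (by omega) m h2'
    have d3 := deg_H s x hs (h1 x (by simp)) l.length
    have h3 : 0 < 4 ^ l.length * s.totalDegree := by positivity
    rw [hst, ← hm'] at d2
    obtain ⟨e1, e2⟩ := sq_cancel _ _ _ _ (by omega) (by omega) h
    obtain ⟨e3, rfl⟩ := ih m hm' h1' h2' e2
    refine ⟨e3, ?_⟩
    have e4 : s ^ (4 ^ (l.length + 1)) = t ^ (4 ^ (l.length + 1)) := by
      rw [show 4 ^ (l.length + 1) = 2 * (2 * 4 ^ l.length) by ring, pow_mul, pow_mul t, sq, sq, e3]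
    rw [← e4] at e1
    rcases e1 with e | e
    · rw [add_left_cancel e]
    · exfalso
      have h0 : s ≠ 0 := by rintro rfl; simp at hs
      have e5 : s ^ (4 ^ (l.length + 1)) + s ^ (4 ^ (l.length + 1)) = -(x + y) := by
        linear_combination e
      have d4 := congrArg totalDegree e5
      rw [deg_two, deg_pow s h0, totalDegree_neg] at d4
      have d5 := totalDegree_add x y
      have d6 := h1 x (by simp)
      have d7 := h2 y (by simp)
      have h4 : 1 ≤ 4 ^ l.length := Nat.one_le_pow _ _ (by norm_num)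
      rw [pow_succ] at d4
      have : 4 ^ l.length * 4 * s.totalDegree ≤ s.totalDegree := by omega
      nlinarith

omit [CharZero K] in
theorem pos_of_nondeg {n : ℕ} (φ : MvPolynomial (Fin n) K →ₐ[K] MvPolynomial (Fin n) K)
    (h : ∃ q, ∀ c : K, φ q ≠ C c) : 0 < (sS ((List.ofFn X).map φ)).totalDegree := by
  by_contra h0
  obtain ⟨q, hq⟩ := h
  have h1 : ∀ i, φ (X i) = C (coeff 0 (φ (X i))) := fun i =>
    totalDegree_eq_zero_iff_eq_C.1 (by
      have := deg_sS ((List.ofFn X).map φ) (φ (X i))
        (List.mem_map_of_mem (List.mem_ofFn.2 ⟨i, rfl⟩))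
      omega)
  have h2 : φ = (Algebra.ofId K _).comp (aeval fun i => coeff 0 (φ (X i))) := by
    apply algHom_ext
    intro i
    rw [AlgHom.comp_apply, aeval_X]
    exact h1 i
  exact hq _ (by rw [h2]; rfl)

theorem result (K : Type*) [Field K] [CharZero K] (n : ℕ) :
    ∃ p : MvPolynomial (Fin n) K,
      ∀ φ ψ : MvPolynomial (Fin n) K →ₐ[K] MvPolynomial (Fin n) K,
        (∃ q, ∀ c : K, φ q ≠ C c) → (∃ q, ∀ c : K, ψ q ≠ C c) → φ p = ψ p → φ = ψ := by
  refine ⟨PP (sS (List.ofFn X)) (List.ofFn X), fun φ ψ hφ hψ h => ?_⟩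
  rw [map_PP, map_PP, map_sS, map_sS] at h
  have p1 := pos_of_nondeg φ hφ
  have p2 := pos_of_nondeg ψ hψ
  have d1 := deg_PP _ p1 _ (deg_sS _)
  have d2 := deg_PP _ p2 _ (deg_sS _)
  rw [h, d2, List.length_map, List.length_map] at d1
  have e := (PP_inj _ _ p1 (Nat.eq_of_mul_eq_mul_left (by positivity)
    (Nat.eq_of_mul_eq_mul_left (by norm_num) d1)) _ _ (by simp) (deg_sS _) (deg_sS _) h).2
  apply algHom_ext
  intro i
  exact List.map_inj_left.1 e _ (List.mem_ofFn.2 ⟨i, rfl⟩)

end Pool.Agent.Results.MP_d61c7e_al.Determining
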